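import Pool.Agent.W78.GT.Basic
import Pool.Agent.W898.GA.Sq
import Pool.Agent.W340.GR.Sq

/-!
Project GT (helper78), GT-4: few triples for which `n^2+tn+c` is divisible by the square of a large
prime (both signs of the discriminant).
-/

set_option autoImplicit false

namespace Pool.Agent.W591.GT

open Finset Filter
open Pool.Agent.W78.GT

variable {t c : ℤ}

/-- `2 n + t` -/
def yy (t : ℤ) (e : Tr) : ℕ := (2 * e.2.1 + t).natAbs

theorem yy_cast {X₁ X₂ : ℝ} {e : Tr} (he : e ∈ tri t c X₁ X₂) : (yy t e : ℤ) = 2 * e.2.1 + t := by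
  have := (mem_tri.1 he).2.2.2.2.2
  unfold yy
  omega

theorem yy_sq {X₁ X₂ : ℝ} {e : Tr} (he : e ∈ tri t c X₁ X₂) :
    (yy t e : ℤ) ^ 2 = 4 * NT e + (t ^ 2 - 4 * c) := by
  rw [yy_cast he, disc_tri he]
  unfold NT
  push_cast
  ring

theorem NT_pos {X₁ X₂ : ℝ} {e : Tr} (he : e ∈ tri t c X₁ X₂) : 0 < NT e := by
  obtain ⟨h1, -, h3, -⟩ := mem_tri.1 he
  exact Nat.mul_pos h1 h3

theorem NT_le {X : ℝ} {e : Tr} (he : e ∈ tri t c X X) : (NT e : ℝ) ≤ X ^ 2 := by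
  obtain ⟨h1, h2, h3, h4, -⟩ := mem_tri.1 he
  unfold NT
  push_cast
  rw [pow_two]
  exact mul_le_mul h2 h4 (Nat.cast_nonneg _) (le_trans (Nat.cast_nonneg _) h2)

/-- few triples with the same `2n + t` -/
theorem fibre_card {X : ℝ} (k P : ℕ) (hP : P ≠ 0) (T : Finset Tr)
    (hT : ∀ e ∈ T, e ∈ tri t c X X ∧ yy t e = k ∧ NT e ∣ P) : T.card ≤ P.divisors.card := by
  refine card_le_card_of_injOn (fun e => e.1) ?_ ?_
  · intro e he
    obtain ⟨h1, h2, h3⟩ := hT e (Finset.mem_coe.1 he)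
    rw [Finset.mem_coe, Nat.mem_divisors]
    exact ⟨(Dvd.intro _ rfl : e.1 ∣ NT e).trans h3, hP⟩
  · intro e he f hf hef
    obtain ⟨h1, h2, h3⟩ := hT e (Finset.mem_coe.1 he)
    obtain ⟨k1, k2, k3⟩ := hT f (Finset.mem_coe.1 hf)
    refine tri_ext h1 k1 hef ?_
    have e1 := yy_cast h1
    have e2 := yy_cast k1
    rw [h2] at e1
    rw [k2] at e2
    omega

/-! ### Negative discriminant -/

open scoped Classical in
theorem large_card_neg (D : ℕ) (hD : (D : ℤ) = 4 * c - t ^ 2) (hD0 : 0 < D) (X : ℝ) (hX : 1 ≤ X)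
    (L : ℝ) (hL : 1 ≤ L) (hL2 : (D : ℝ) + 1 ≤ L) :
    (((tri t c X X).filter (fun e => ∃ l : ℕ, l.Prime ∧ L < (l : ℝ) ∧ l ^ 2 ∣ NT e)).card : ℝ) ≤
      ∑ k ∈ Pool.Agent.W898.GA.PX D ⌊L⌋₊ ⌊2 * X⌋₊, (((k ^ 2 + D).divisors.card : ℕ) : ℝ) := by
  set T := (tri t c X X).filter (fun e => ∃ l : ℕ, l.Prime ∧ L < (l : ℝ) ∧ l ^ 2 ∣ NT e) with hT
  have four : ∀ e ∈ tri t c X X, 4 * NT e = yy t e ^ 2 + D := by
    intro e he
    have h1 := yy_sq he
    have h2 : ((4 * NT e : ℕ) : ℤ) = ((yy t e ^ 2 + D : ℕ) : ℤ) := by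
      push_cast
      rw [h1, hD]
      ring
    exact_mod_cast h2
  have hmap : ∀ e ∈ T, yy t e ∈ Pool.Agent.W898.GA.PX D ⌊L⌋₊ ⌊2 * X⌋₊ := by
    intro e he
    rw [hT, mem_filter] at he
    obtain ⟨he, l, hlp, hlL, hld⟩ := he
    have h4 := four e he
    have hld' : l ^ 2 ∣ yy t e ^ 2 + D := by
      rw [← h4]
      exact hld.mul_left 4
    rw [Pool.Agent.W898.GA.mem_PX]
    refine ⟨⟨?_, ?_⟩, l, hlp, ?_, hld'⟩
    · by_contra h0
      have h0' : yy t e = 0 := by omega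
      rw [h0'] at hld'
      have h5 : l ^ 2 ∣ D := by simpa using hld'
      have h6 := Nat.le_of_dvd hD0 h5
      have h7 : ((D : ℕ) : ℝ) < (l : ℝ) := by linarith
      have h8 : D < l := by exact_mod_cast h7
      nlinarith
    · apply Nat.le_floor
      have h5 := NT_le he
      have h4' : (4 : ℝ) * NT e = (yy t e : ℝ) ^ 2 + D := by exact_mod_cast h4
      have h6 : ((yy t e : ℕ) : ℝ) ^ 2 ≤ (2 * X) ^ 2 := by
        have : (0 : ℝ) ≤ D := Nat.cast_nonneg _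
        nlinarith
      exact (pow_le_pow_iff_left₀ (Nat.cast_nonneg _) (by linarith) two_ne_zero).1 h6
    · exact (Nat.floor_lt (by linarith)).2 hlL
  have h1 : T.card ≤ ∑ k ∈ Pool.Agent.W898.GA.PX D ⌊L⌋₊ ⌊2 * X⌋₊, (k ^ 2 + D).divisors.card := by
    rw [card_eq_sum_card_fiberwise hmap]
    refine sum_le_sum fun k _ => ?_
    refine fibre_card (t := t) (c := c) (X := X) k (k ^ 2 + D) (by omega) _ fun e he => ?_
    rw [mem_filter] at he
    have h2 := he.1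
    rw [hT, mem_filter] at h2
    refine ⟨h2.1, he.2, ?_⟩
    rw [← he.2, ← four e h2.1]
    exact Dvd.intro_left 4 rfl
  exact_mod_cast h1

theorem large_fin (X S l δ K : ℝ) (hX : 0 < X) (hl : 0 < l) (hK : 0 ≤ K) (hδ : 0 < δ)
    (h7 : K / δ ≤ l) (h5 : S ^ 2 ≤ (K * X / l) ^ 2) : S ≤ δ * X := by
  have h8 : S ≤ K * X / l := by
    by_contra hlt
    push Not at hlt
    have : (0 : ℝ) ≤ K * X / l := by positivity
    nlinarith
  have h9 : K ≤ δ * l := by
    rw [div_le_iff₀ hδ] at h7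
    linarith
  have h10 : K * X / l ≤ δ * X := by
    rw [div_le_iff₀ hl]
    nlinarith
  linarith

theorem large_neg (hneg : t ^ 2 < 4 * c) : S_LARGET t c := by
  classical
  refine ⟨34, fun δ hδ => ?_⟩
  obtain ⟨D, hDc⟩ := Int.eq_ofNat_of_zero_le (show 0 ≤ 4 * c - t ^ 2 by omega)
  have hD : (D : ℤ) = 4 * c - t ^ 2 := hDc.symm
  have hdd : 0 < D := by
    have : (0 : ℤ) < D := by rw [hD]; omega
    exact_mod_cast this
  have hDr : (1 : ℝ) ≤ D := by exact_mod_cast hdd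
  -- the constant
  set K2 : ℝ := (24 * D + 1) * (36 * D * 4 ^ 32) with hK2
  have hK20 : 0 ≤ K2 := by positivity
  set K : ℝ := Real.sqrt K2 with hK
  have hK0 : 0 ≤ K := Real.sqrt_nonneg _
  have hKK : K ^ 2 = K2 := Real.sq_sqrt hK20
  have h1 : ∀ᶠ X : ℝ in atTop, max ((D : ℝ) + 1) (K / δ) ≤ Real.log X :=
    Real.tendsto_log_atTop.eventually_ge_atTop _
  have ev : ∀ᶠ X : ℝ in atTop, (open scoped Classical in
    (((tri t c X X).filter (fun e => ∃ l : ℕ, l.Prime ∧ Real.log X ^ 34 < (l : ℝ) ∧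
      l ^ 2 ∣ NT e)).card : ℝ)) ≤ δ * X := by
    filter_upwards [h1, Pool.Agent.W898.GA.card_PX_ev D hdd, eventually_ge_atTop (16 + (D : ℝ))]
      with X hl hcard hX
    have hX0 : (0 : ℝ) < X := by linarith
    have hX1 : (1 : ℝ) ≤ X := by linarith
    have hl1 : (D : ℝ) + 1 ≤ Real.log X := (le_max_left _ _).trans hl
    have hl1' : 1 ≤ Real.log X := by linarith
    have hl2 : K / δ ≤ Real.log X := (le_max_right _ _).trans hl
    have hℓ0 : 0 < Real.log X := by linarith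
    have hlpow : Real.log X ≤ Real.log X ^ 34 := le_self_pow₀ hl1' (by norm_num)
    refine (large_card_neg D hD hdd X hX1 (Real.log X ^ 34) (one_le_pow₀ hl1')
      (by linarith)).trans ?_
    have h2 := Pool.Agent.W898.GA.large_sq D ⌊Real.log X ^ 34⌋₊ ⌊2 * X⌋₊ hdd
    have hN : (⌊2 * X⌋₊ : ℝ) ≤ 2 * X := Nat.floor_le (by linarith)
    have hN0 : (0 : ℝ) ≤ (⌊2 * X⌋₊ : ℝ) := Nat.cast_nonneg _
    have hND : ((⌊2 * X⌋₊ : ℝ) + D) ≤ 3 * X := by linarith
    have hND1 : (1 : ℝ) ≤ (⌊2 * X⌋₊ : ℝ) + D := by linarith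
    have hlogN : Real.log ((⌊2 * X⌋₊ + D : ℕ) : ℝ) ≤ 2 + Real.log X := by
      push_cast
      have h3 := Real.log_le_log (by linarith) hND
      rw [Real.log_mul (by norm_num) hX0.ne'] at h3
      have h4 : Real.log 3 ≤ 2 := by
        have := Real.log_le_sub_one_of_pos (show (0 : ℝ) < 3 by norm_num)
        linarith
      linarith
    have hlogN0 : 0 ≤ Real.log ((⌊2 * X⌋₊ + D : ℕ) : ℝ) := by
      push_cast
      exact Real.log_nonneg hND1
    have h3 : (1 + Real.log ((⌊2 * X⌋₊ + D : ℕ) : ℝ)) ^ 32 ≤ (4 * Real.log X) ^ 32 :=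
      pow_le_pow_left₀ (by linarith) (by linarith) 32
    have h4 : 12 * (D : ℝ) * ((⌊2 * X⌋₊ : ℝ) + D) * (1 + Real.log ((⌊2 * X⌋₊ + D : ℕ) : ℝ)) ^ 32 ≤
        12 * D * (3 * X) * (4 * Real.log X) ^ 32 :=
      mul_le_mul (mul_le_mul_of_nonneg_left hND (by positivity)) h3 (by positivity) (by positivity)
    have h5 := h2.trans (mul_le_mul hcard h4 (by positivity) (by positivity))
    have h6 : (24 * (D : ℝ) + 1) * (X / Real.log X ^ 34) *
        (12 * D * (3 * X) * (4 * Real.log X) ^ 32) = (K * X / Real.log X) ^ 2 := by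
      rw [div_pow, mul_pow K X, hKK, hK2, mul_pow]
      field_simp
      ring
    rw [h6] at h5
    exact large_fin X _ _ δ K hX0 hℓ0 hK0 hδ hl2 h5
  exact eventually_atTop.1 ev

/-! ### Positive discriminant -/

open scoped Classical in
theorem large_card_pos (D : ℕ) (hD : (D : ℤ) = t ^ 2 - 4 * c) (hD0 : 0 < D) (X : ℝ)
    (hX : (D : ℝ) ≤ X) (L : ℝ) (hL : 1 ≤ L) (hL2 : (D : ℝ) ≤ L) :
    (((tri t c X X).filter (fun e => ∃ l : ℕ, l.Prime ∧ L < (l : ℝ) ∧ l ^ 2 ∣ NT e)).card : ℝ) ≤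
      ∑ k ∈ Pool.Agent.W340.GR.PX D ⌊L⌋₊ ⌊4 * X⌋₊, (((k ^ 2 - D).divisors.card : ℕ) : ℝ) := by
  set T := (tri t c X X).filter (fun e => ∃ l : ℕ, l.Prime ∧ L < (l : ℝ) ∧ l ^ 2 ∣ NT e) with hT
  have hddr : (1 : ℝ) ≤ D := by exact_mod_cast hD0
  have hX1 : (1 : ℝ) ≤ X := hddr.trans hX
  have four : ∀ e ∈ tri t c X X, yy t e ^ 2 = 4 * NT e + D := by
    intro e he
    have h1 := yy_sq he
    have h2 : ((yy t e ^ 2 : ℕ) : ℤ) = ((4 * NT e + D : ℕ) : ℤ) := by
      push_cast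
      rw [h1, hD]
    exact_mod_cast h2
  have hmap : ∀ e ∈ T, yy t e ∈ Pool.Agent.W340.GR.PX D ⌊L⌋₊ ⌊4 * X⌋₊ := by
    intro e he
    rw [hT, mem_filter] at he
    obtain ⟨he, l, hlp, hlL, hld⟩ := he
    have h4 := four e he
    have hN0 := NT_pos he
    have h4' : yy t e ^ 2 - D = 4 * NT e := by omega
    have hld' : l ^ 2 ∣ yy t e ^ 2 - D := by
      rw [h4']
      exact hld.mul_left 4
    have hlD : D < l := by
      have : ((D : ℕ) : ℝ) < (l : ℝ) := by linarith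
      exact_mod_cast this
    rw [Pool.Agent.W340.GR.mem_PX]
    refine ⟨⟨?_, ?_⟩, l, hlp, ?_, hld'⟩
    · by_contra h0
      have h0' : yy t e ≤ D := by omega
      have h5 : l ^ 2 ≤ yy t e ^ 2 - D := Nat.le_of_dvd (by omega) hld'
      have h6 : yy t e ^ 2 ≤ D ^ 2 := Nat.pow_le_pow_left h0' 2
      have h7 : D ^ 2 < l ^ 2 := Nat.pow_lt_pow_left hlD two_ne_zero
      omega
    · apply Nat.le_floor
      have h5 := NT_le he
      have h5' : (yy t e : ℝ) ^ 2 = 4 * NT e + D := by exact_mod_cast h4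
      have h6 : ((yy t e : ℕ) : ℝ) ^ 2 ≤ (4 * X) ^ 2 := by
        nlinarith
      exact (pow_le_pow_iff_left₀ (Nat.cast_nonneg _) (by linarith) two_ne_zero).1 h6
    · exact (Nat.floor_lt (by linarith)).2 hlL
  have h1 : T.card ≤ ∑ k ∈ Pool.Agent.W340.GR.PX D ⌊L⌋₊ ⌊4 * X⌋₊, (k ^ 2 - D).divisors.card := by
    rw [card_eq_sum_card_fiberwise hmap]
    refine sum_le_sum fun k hk => ?_
    have hk1 := Pool.Agent.W340.GR.sq_ge (Pool.Agent.W340.GR.mem_PX.1 hk).1.1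
    refine fibre_card (t := t) (c := c) (X := X) k (k ^ 2 - D) (by omega) _ fun e he => ?_
    rw [mem_filter] at he
    have h2 := he.1
    rw [hT, mem_filter] at h2
    refine ⟨h2.1, he.2, ?_⟩
    have h4 := four e h2.1
    have h5 : k ^ 2 - D = 4 * NT e := by rw [← he.2]; omega
    rw [h5]
    exact Dvd.intro_left 4 rfl
  exact_mod_cast h1

theorem large_pos (hpos : 4 * c < t ^ 2) : S_LARGET t c := by
  classical
  refine ⟨35, fun δ hδ => ?_⟩
  obtain ⟨D, hDc⟩ := Int.eq_ofNat_of_zero_le (show 0 ≤ t ^ 2 - 4 * c by omega)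
  have hD : (D : ℤ) = t ^ 2 - 4 * c := hDc.symm
  have hdd : 0 < D := by
    have : (0 : ℤ) < D := by rw [hD]; omega
    exact_mod_cast this
  have hDr : (1 : ℝ) ≤ D := by exact_mod_cast hdd
  -- the constant
  set K2 : ℝ := (48 * D + 1) * (36 * D * 4 ^ 32) with hK2
  have hK20 : 0 ≤ K2 := by positivity
  set K : ℝ := Real.sqrt K2 with hK
  have hK0 : 0 ≤ K := Real.sqrt_nonneg _
  have hKK : K ^ 2 = K2 := Real.sq_sqrt hK20
  have t2 : Tendsto (fun X : ℝ => 2 * X) atTop atTop :=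
    Tendsto.const_mul_atTop (by norm_num) tendsto_id
  have h1 : ∀ᶠ X : ℝ in atTop, max (max ((D : ℝ) + 1) (K * 2 / δ)) (2 ^ 34) ≤ Real.log X :=
    Real.tendsto_log_atTop.eventually_ge_atTop _
  have ev : ∀ᶠ X : ℝ in atTop, (open scoped Classical in
    (((tri t c X X).filter (fun e => ∃ l : ℕ, l.Prime ∧ Real.log X ^ 35 < (l : ℝ) ∧
      l ^ 2 ∣ NT e)).card : ℝ)) ≤ δ * X := by
    filter_upwards [h1, t2.eventually (Pool.Agent.W340.GR.card_PX_ev D hdd),
      eventually_ge_atTop (16 + (D : ℝ))] with X hl hcard hX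
    have hX0 : (0 : ℝ) < X := by linarith
    have hX1 : (1 : ℝ) ≤ X := by linarith
    have hl1 : (D : ℝ) + 1 ≤ Real.log X := ((le_max_left _ _).trans (le_max_left _ _)).trans hl
    have hl1' : 1 ≤ Real.log X := by linarith
    have hl2 : K * 2 / δ ≤ Real.log X :=
      ((le_max_right _ _).trans (le_max_left _ _)).trans hl
    have hl3 : (2 : ℝ) ^ 34 ≤ Real.log X := (le_max_right _ _).trans hl
    have hℓ0 : 0 < Real.log X := by linarith
    -- the doubled variable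
    have hlog2 : Real.log (2 * X) = Real.log 2 + Real.log X := Real.log_mul (by norm_num) hX0.ne'
    have h27 := Real.log_two_gt_d9
    have h27' := Real.log_two_lt_d9
    have hle2 : Real.log (2 * X) ≤ 2 * Real.log X := by rw [hlog2]; linarith
    have hge2 : Real.log X ≤ Real.log (2 * X) := by rw [hlog2]; linarith
    have hℓ2 : 0 < Real.log (2 * X) := by linarith
    have hpw : Real.log (2 * X) ^ 34 ≤ Real.log X ^ 35 := by
      calc Real.log (2 * X) ^ 34 ≤ (2 * Real.log X) ^ 34 := pow_le_pow_left₀ hℓ2.le hle2 34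
        _ = 2 ^ 34 * Real.log X ^ 34 := by rw [mul_pow]
        _ ≤ Real.log X * Real.log X ^ 34 := mul_le_mul_of_nonneg_right hl3 (by positivity)
        _ = Real.log X ^ 35 := by rw [← pow_succ']
    have hlpow : Real.log X ≤ Real.log (2 * X) ^ 34 :=
      hge2.trans (le_self_pow₀ (hl1'.trans hge2) (by norm_num))
    have hsub : ((tri t c X X).filter (fun e => ∃ l : ℕ, l.Prime ∧ Real.log X ^ 35 < (l : ℝ) ∧
        l ^ 2 ∣ NT e)) ⊆ ((tri t c X X).filter (fun e => ∃ l : ℕ, l.Prime ∧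
        Real.log (2 * X) ^ 34 < (l : ℝ) ∧ l ^ 2 ∣ NT e)) := by
      intro e he
      rw [mem_filter] at he ⊢
      obtain ⟨he, l, a1, a2, a3⟩ := he
      exact ⟨he, l, a1, hpw.trans_lt a2, a3⟩
    have hc0 : ((((tri t c X X).filter (fun e => ∃ l : ℕ, l.Prime ∧ Real.log X ^ 35 < (l : ℝ) ∧
        l ^ 2 ∣ NT e)).card : ℕ) : ℝ) ≤ ((((tri t c X X).filter (fun e => ∃ l : ℕ, l.Prime ∧
        Real.log (2 * X) ^ 34 < (l : ℝ) ∧ l ^ 2 ∣ NT e)).card : ℕ) : ℝ) := by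
      exact_mod_cast card_le_card hsub
    refine hc0.trans ?_
    refine (large_card_pos D hD hdd X (by linarith) (Real.log (2 * X) ^ 34)
      (hl1'.trans hlpow) (by linarith)).trans ?_
    have e4 : (4 : ℝ) * X = 2 * (2 * X) := by ring
    rw [e4]
    have eX : δ * X = (δ / 2) * (2 * X) := by ring
    rw [eX]
    set X' : ℝ := 2 * X with hX'
    have hX'0 : (0 : ℝ) < X' := by positivity
    have hX'1 : (16 : ℝ) + D ≤ X' := by linarith
    have h2 := Pool.Agent.W340.GR.large_sq D ⌊Real.log X' ^ 34⌋₊ ⌊2 * X'⌋₊ hdd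
    have hN : (⌊2 * X'⌋₊ : ℝ) ≤ 2 * X' := Nat.floor_le (by linarith)
    have hN0 : (0 : ℝ) ≤ (⌊2 * X'⌋₊ : ℝ) := Nat.cast_nonneg _
    have hND : ((⌊2 * X'⌋₊ : ℝ) + D) ≤ 3 * X' := by linarith
    have hND1 : (1 : ℝ) ≤ (⌊2 * X'⌋₊ : ℝ) + D := by linarith
    have hlogX' : 1 ≤ Real.log X' := hl1'.trans hge2
    have hlogN : Real.log ((⌊2 * X'⌋₊ + D : ℕ) : ℝ) ≤ 2 + Real.log X' := by
      push_cast
      have h3 := Real.log_le_log (by linarith) hND
      rw [Real.log_mul (by norm_num) hX'0.ne'] at h3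
      have h4 : Real.log 3 ≤ 2 := by
        have := Real.log_le_sub_one_of_pos (show (0 : ℝ) < 3 by norm_num)
        linarith
      linarith
    have hlogN0 : 0 ≤ Real.log ((⌊2 * X'⌋₊ + D : ℕ) : ℝ) := by
      push_cast
      exact Real.log_nonneg hND1
    have h3 : (1 + Real.log ((⌊2 * X'⌋₊ + D : ℕ) : ℝ)) ^ 32 ≤ (4 * Real.log X') ^ 32 :=
      pow_le_pow_left₀ (by linarith) (by linarith) 32
    have h4 : 12 * (D : ℝ) * ((⌊2 * X'⌋₊ : ℝ) + D) * (1 + Real.log ((⌊2 * X'⌋₊ + D : ℕ) : ℝ)) ^ 32 ≤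
        12 * D * (3 * X') * (4 * Real.log X') ^ 32 :=
      mul_le_mul (mul_le_mul_of_nonneg_left hND (by positivity)) h3 (by positivity) (by positivity)
    have h5 := h2.trans (mul_le_mul hcard h4 (by positivity) (by positivity))
    have h6 : (48 * (D : ℝ) + 1) * (X' / Real.log X' ^ 34) *
        (12 * D * (3 * X') * (4 * Real.log X') ^ 32) = (K * X' / Real.log X') ^ 2 := by
      rw [div_pow, mul_pow K X', hKK, hK2, mul_pow]
      field_simp
      ring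
    rw [h6] at h5
    refine large_fin X' _ (Real.log X') (δ / 2) K hX'0 hℓ2 hK0 (by positivity) ?_ h5
    have e5 : K / (δ / 2) = K * 2 / δ := by field_simp
    rw [e5]
    exact hl2.trans hge2
  exact eventually_atTop.1 ev

/-- GT-4 -/
theorem larget (hns : ¬ IsSquare (t ^ 2 - 4 * c)) : S_LARGET t c := by
  rcases lt_trichotomy (t ^ 2) (4 * c) with h | h | h
  · exact large_neg h
  · exact absurd ⟨0, by omega⟩ hns
  · exact large_pos h

end Pool.Agent.W591.GT
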